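import Mathlib
import Pool.Agent.H59.DiagMain

set_option autoImplicit false

/-!
# Two conjugate minimal homeomorphisms without a recurrent diagonal point

Minimality (two-sided orbits) and recurrence (along a sequence of natural numbers tending to
infinity) are the definitions of the problem.

`result`: there are a nonempty compact metric space `X` and two minimal homeomorphisms `T`, `S`
of `X` (even with all forward orbits dense), `S` conjugate to `T` by a homeomorphism of `X`, such
that no diagonal point `(x, x)` is recurrent under `T × S`.  The failure of recurrence is uniform: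
`X` is the disjoint union of four clopen sets, and for no `x` and no `n ≥ 1` do both `T^n x` and
`S^n x` lie in the clopen set of `x`.
-/

namespace Pool.Agent.Results.MP_ef2f7d_an.NoDiagonalRecurrence

open Filter Topology

/-- a homeomorphism is minimal if all its two-sided orbits are dense -/
def IsMinimal {X : Type*} [TopologicalSpace X] (T : X ≃ₜ X) : Prop :=
  ∀ x : X, Dense {y : X | ∃ n : ℤ, y = (T ^ n : X ≃ₜ X) x}

/-- the same for the closed invariant sets -/
def NoInvariantClosed {X : Type*} [TopologicalSpace X] (T : X ≃ₜ X) : Prop :=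
  ∀ A : Set X, IsClosed A → T '' A = A → A = ∅ ∨ A = Set.univ

/-- `z` is recurrent under `R`: for some sequence of natural numbers `k i` tending to infinity
`R^(k i) z` tends to `z` -/
def IsRecurrent {Z : Type*} [TopologicalSpace Z] (R : Z → Z) (z : Z) : Prop :=
  ∃ k : ℕ → ℕ, Tendsto k atTop atTop ∧ Tendsto (fun i => R^[k i] z) atTop (𝓝 z)

theorem pow_eq_iterate {X : Type*} [TopologicalSpace X] (T : X ≃ₜ X) (n : ℕ) (x : X) :
    (T ^ n : X ≃ₜ X) x = (⇑T)^[n] x := by
  induction n generalizing x with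
  | zero => rfl
  | succ n ih =>
    rw [pow_succ, Function.iterate_succ_apply]
    exact ih (T x)

theorem isMinimal_of_forward {X : Type*} [TopologicalSpace X] {T : X ≃ₜ X}
    (h : ∀ x : X, Dense (Set.range (fun n : ℕ => (⇑T)^[n] x))) : IsMinimal T := by
  intro x
  refine (h x).mono ?_
  rintro _ ⟨n, rfl⟩
  refine ⟨(n : ℤ), ?_⟩
  rw [zpow_natCast, pow_eq_iterate]

theorem noInvariantClosed_of_forward {X : Type*} [TopologicalSpace X] {T : X ≃ₜ X}
    (h : ∀ x : X, Dense (Set.range (fun n : ℕ => (⇑T)^[n] x))) : NoInvariantClosed T := by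
  intro A hA hT
  rcases A.eq_empty_or_nonempty with h0 | ⟨x, hx⟩
  · exact Or.inl h0
  · right
    have hsub : Set.range (fun n : ℕ => (⇑T)^[n] x) ⊆ A := by
      rintro _ ⟨n, rfl⟩
      induction n with
      | zero => exact hx
      | succ n ih =>
        have h1 : T ((⇑T)^[n] x) ∈ A := by
          rw [← hT]
          exact Set.mem_image_of_mem _ ih
        simpa only [Function.iterate_succ_apply'] using h1
    exact Set.eq_univ_of_univ_subset (by
      rw [← (h x).closure_eq]
      exact closure_minimal hsub hA)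

/-- There are a nonempty compact metric space `X` and two minimal homeomorphisms `T` and `S` of
`X`, conjugate to each other, and a locally constant map `c` with four values such that
`c (T^n x) = c x` and `c (S^n x) = c x` are never both true for `n ≥ 1`; in particular no diagonal
point `(x, x)` is recurrent under `T × S`. -/
theorem result :
    ∃ (X : Type) (_ : MetricSpace X) (_ : CompactSpace X) (_ : Nonempty X) (T S : X ≃ₜ X),
      (IsMinimal T ∧ IsMinimal S) ∧
      (NoInvariantClosed T ∧ NoInvariantClosed S) ∧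
      ((∀ x : X, Dense (Set.range (fun n : ℕ => (⇑T)^[n] x))) ∧
        (∀ x : X, Dense (Set.range (fun n : ℕ => (⇑S)^[n] x)))) ∧
      (∃ P : X ≃ₜ X, ∀ x : X, P (S x) = T (P x)) ∧
      (∃ c : X → Fin 4, IsLocallyConstant c ∧
        ∀ x : X, ∀ n : ℕ, 1 ≤ n → ¬ (c ((⇑T)^[n] x) = c x ∧ c ((⇑S)^[n] x) = c x)) ∧
      ∀ x : X, ¬ IsRecurrent (Prod.map T S) (x, x) := by
  let inst : MetricSpace H59.Diag.X := TopologicalSpace.metrizableSpaceMetric H59.Diag.X
  have hc : CompactSpace H59.Diag.X := isCompact_iff_compactSpace.1 H59.Diag.X_closed.isCompact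
  have hlc : IsLocallyConstant (fun y : H59.Diag.X => (y.1 1 : Fin 4)) := by
    have hcont : Continuous (fun y : H59.Diag.X => y.1 1) :=
      (continuous_apply (1 : H59.Diag.F)).comp continuous_subtype_val
    intro s
    exact hcont.isOpen_preimage s (isOpen_discrete _)
  have hno : ∀ x : H59.Diag.X, ∀ n : ℕ, 1 ≤ n →
      ¬ ((((⇑(H59.Diag.hom H59.Diag.gT))^[n] x).1 1 : Fin 4) = x.1 1 ∧
        (((⇑H59.Diag.homS)^[n] x).1 1 : Fin 4) = x.1 1) :=
    fun x n hn => H59.Diag.no_return x hn
  refine ⟨H59.Diag.X, inst, hc, H59.Diag.X_nonempty.to_subtype, H59.Diag.hom H59.Diag.gT,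
    H59.Diag.homS, ⟨isMinimal_of_forward H59.Diag.dense_T, isMinimal_of_forward H59.Diag.dense_S⟩,
    ⟨noInvariantClosed_of_forward H59.Diag.dense_T,
      noInvariantClosed_of_forward H59.Diag.dense_S⟩,
    ⟨H59.Diag.dense_T, H59.Diag.dense_S⟩, ⟨H59.Diag.hom H59.Diag.gP, fun x => ?_⟩,
    ⟨fun y => y.1 1, hlc, hno⟩, ?_⟩
  · simp [H59.Diag.homS]
  · rintro x ⟨k, hk, hlim⟩
    have hit : ∀ n : ℕ, (Prod.map (⇑(H59.Diag.hom H59.Diag.gT)) (⇑H59.Diag.homS))^[n] (x, x) =
        ((⇑(H59.Diag.hom H59.Diag.gT))^[n] x, (⇑H59.Diag.homS)^[n] x) := by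
      intro n
      rw [Prod.map_iterate]
      rfl
    have hopen : IsOpen {y : H59.Diag.X | (y.1 1 : Fin 4) = x.1 1} := hlc {x.1 1}
    have hnhd : {z : H59.Diag.X × H59.Diag.X | (z.1.1 1 : Fin 4) = x.1 1 ∧
        (z.2.1 1 : Fin 4) = x.1 1} ∈ 𝓝 ((x, x) : H59.Diag.X × H59.Diag.X) :=
      (hopen.prod hopen).mem_nhds ⟨rfl, rfl⟩
    have h1 := hlim.eventually hnhd
    have h2 := hk.eventually (eventually_ge_atTop 1)
    obtain ⟨i, hi1, hi2⟩ := (h1.and h2).exists
    rw [hit] at hi1
    exact hno x (k i) hi2 hi1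

end Pool.Agent.Results.MP_ef2f7d_an.NoDiagonalRecurrence
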